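import Pool.Agent.BED.Stmts
import Pool.Agent.Helper69_BE01.Fre

/-!
# Squad BED (MP_be01ff_an), row FRK: the Fredholm alternative in a closed subspace
-/

set_option autoImplicit false

namespace Pool.Agent.BED.H46

open Set Filter Topology MeasureTheory
open scoped InnerProductSpace ENNReal
open Pool.Agent.BED

noncomputable section

theorem frk : FrkStmt := by
  intro H _ _ _ S K l hS hsym hK hSK
  have : CompleteSpace K := hK.completeSpace_coe
  obtain ⟨S', hS'⟩ : ∃ S' : K →L[ℝ] K, ∀ x : K, ((S' x : K) : H) = S x :=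
    ⟨(S.comp K.subtypeL).codRestrict K (fun x => hSK x x.2), fun _ => rfl⟩
  have hc : IsCompactOperator S' := by
    have h1 : IsCompactOperator (fun x : K => S (x : H)) :=
      hS.comp_clm K.subtypeL
    have h2 := h1.codRestrict (V := K) (fun x => hSK x x.2) hK
    have h3 : (Set.codRestrict (fun x : K => S (x : H)) (K : Set H) (fun x => hSK x x.2)) =
        (fun x : K => S' x) := by
      funext x
      apply Subtype.ext
      rw [hS' x]
      rfl
    rw [h3] at h2
    exact h2
  have hs : ∀ h k : K, ⟪S' h, k⟫_ℝ = ⟪h, S' k⟫_ℝ := by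
    intro h k
    rw [Submodule.coe_inner, Submodule.coe_inner, hS', hS']
    exact hsym _ _
  obtain ⟨f1, f2⟩ := Pool.Agent.BE01.H69.fre K S' l hc hs
  refine ⟨fun hinj F hF => ?_, fun φ hφ hφ0 hφl hsim F hF hFφ => ?_⟩
  · obtain ⟨q, hq⟩ := f1 (fun u hu => by
      apply Subtype.ext
      refine hinj u u.2 ?_
      have := congrArg (fun x : K => (x : H)) hu
      simpa [hS'] using this) ⟨F, hF⟩
    refine ⟨q, q.2, ?_⟩
    have := congrArg (fun x : K => (x : H)) hq
    simpa [hS'] using this
  · obtain ⟨q, hq⟩ := f2 ⟨φ, hφ⟩ (fun h => hφ0 (congrArg (fun x : K => (x : H)) h)) (by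
        apply Subtype.ext
        simpa [hS'] using hφl) (fun u hu => by
        have h1 := congrArg (fun x : K => (x : H)) hu
        obtain ⟨c, hc⟩ := hsim u u.2 (by simpa [hS'] using h1)
        exact ⟨c, Subtype.ext (by simpa using hc)⟩) ⟨F, hF⟩ (by
        rw [Submodule.coe_inner]
        exact hFφ)
    refine ⟨q, q.2, ?_⟩
    have := congrArg (fun x : K => (x : H)) hq
    simpa [hS'] using this

end

end Pool.Agent.BED.H46
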